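import Mathlib
import Pool.Agent.W872.CC.Card

/-!
# Ulam matrices and maximal antichains
-/

namespace Pool.Agent.Y467.CC

open Cardinal Pool.Agent.Helper669.Forcing Pool.Agent.W872.CC

/-- `P` satisfies the countable chain condition: every set of pairwise incompatible conditions
is countable. -/
def CCC (P : Type) [Preorder P] : Prop :=
  ∀ A : Set P, (∀ p ∈ A, ∀ q ∈ A, (∃ r, r ≤ p ∧ r ≤ q) → p = q) → A.Countable

section

variable {P : Type} [Preorder P]

/-- a countable maximal antichain among given conditions, which carry labels -/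
theorem exists_max (hc : CCC P) {α : Type*} (D : Set (P × α)) (p : P)
    (hD : ∀ r ≤ p, ∃ d ∈ D, d.1 ≤ r) :
    ∃ A ⊆ D, A.Countable ∧ (∀ d ∈ A, ∀ e ∈ A, (∃ r, r ≤ d.1 ∧ r ≤ e.1) → d = e) ∧
      ∀ r ≤ p, ∃ d ∈ A, ∃ t, t ≤ r ∧ t ≤ d.1 := by
  let S : Set (Set (P × α)) :=
    {A | A ⊆ D ∧ ∀ d ∈ A, ∀ e ∈ A, (∃ r, r ≤ d.1 ∧ r ≤ e.1) → d = e}
  have hz : ∃ A, Maximal (· ∈ S) A := by
    refine zorn_subset S fun c hc hchain => ⟨⋃₀ c, ⟨?_, ?_⟩, fun s hs => Set.subset_sUnion_of_mem hs⟩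
    · exact Set.sUnion_subset fun s hs => (hc hs).1
    · rintro d ⟨s, hs, hds⟩ e ⟨t, ht, het⟩ h
      rcases hchain.total hs ht with hst | hst
      · exact (hc ht).2 d (hst hds) e het h
      · exact (hc hs).2 d hds e (hst het) h
  obtain ⟨A, hA⟩ := hz
  have hAS : A ∈ S := hA.prop
  refine ⟨A, hAS.1, ?_, hAS.2, ?_⟩
  · have hinj : Set.InjOn Prod.fst A := fun d hd e he h =>
      hAS.2 d hd e he ⟨d.1, le_rfl, le_of_eq h⟩
    have h1 : (Prod.fst '' A).Countable := by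
      refine hc _ ?_
      rintro _ ⟨d, hd, rfl⟩ _ ⟨e, he, rfl⟩ h
      rw [hAS.2 d hd e he h]
    exact (Set.countable_of_injective_of_countable_image hinj h1)
  · intro r hr
    by_contra hcon
    push Not at hcon
    obtain ⟨d, hd, hdr⟩ := hD r hr
    have h1 : insert d A ∈ S := by
      refine ⟨Set.insert_subset hd hAS.1, ?_⟩
      rintro a (rfl | ha) b (rfl | hb) ⟨t, ht, ht'⟩
      · rfl
      · exact absurd ht' (hcon b hb t (ht.trans hdr))
      · exact absurd ht (hcon a ha t (ht'.trans hdr))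
      · exact hAS.2 a ha b hb ⟨t, ht, ht'⟩
    have h2 : insert d A ⊆ A := hA.le_of_ge h1 (Set.subset_insert d A)
    exact hcon d (h2 (Set.mem_insert d A)) d.1 hdr le_rfl

end

/-! ### Ulam matrices -/

/-- sets with at most `#M` elements are small -/
theorem small_mem {K M : Type} [Nonempty K] {J : Set (Set K)}
    (hmono : ∀ A ∈ J, ∀ B ⊆ A, B ∈ J) (hcomp : ∀ A : M → Set K, (∀ m, A m ∈ J) → (⋃ m, A m) ∈ J)
    (hsing : ∀ a : K, {a} ∈ J) {S : Set K} (hS : #S ≤ #M) : S ∈ J := by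
  by_cases h : S.Nonempty
  · obtain ⟨a, ha⟩ := h
    have : Nonempty S := ⟨⟨a, ha⟩⟩
    obtain ⟨g⟩ := hS
    have h1 := hcomp (fun m => {((Function.invFun (g : S → M) m : S) : K)}) (fun m => hsing _)
    refine hmono _ h1 _ fun x hx => Set.mem_iUnion.2 ⟨g ⟨x, hx⟩, ?_⟩
    rw [Function.leftInverse_invFun g.injective]
    rfl
  · rw [Set.not_nonempty_iff_eq_empty] at h
    rw [h]
    exact hmono _ (hsing (Classical.arbitrary K)) _ (Set.empty_subset _)

theorem ulam {K M : Type} [Nonempty K] (hinf : ℵ₀ ≤ #M) (hK : #K ≤ Order.succ #M)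
    {J : Set (Set K)} (hmono : ∀ A ∈ J, ∀ B ⊆ A, B ∈ J)
    (hcomp : ∀ A : M → Set K, (∀ m, A m ∈ J) → (⋃ m, A m) ∈ J)
    (hsing : ∀ a : K, {a} ∈ J) (hproper : Set.univ ∉ J) :
    ∃ (Y : Set K) (B : K → Set K), #M < #Y ∧
      (∀ y ∈ Y, ∀ y' ∈ Y, y ≠ y' → Disjoint (B y) (B y')) ∧ ∀ y ∈ Y, B y ∉ J := by
  classical
  have hsmall : ∀ S : Set K, #S ≤ #M → S ∈ J := fun S hS => small_mem hmono hcomp hsing hS
  have hunion : ∀ A ∈ J, ∀ B ∈ J, A ∪ B ∈ J := by
    intro A hA B hB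
    have hne : Nontrivial M := by
      rw [← Cardinal.one_lt_iff_nontrivial]
      exact one_lt_aleph0.trans_le hinf
    obtain ⟨m₀, m₁, hm⟩ := hne
    have h1 := hcomp (fun m => if m = m₀ then A else B) (fun m => by
      by_cases h : m = m₀ <;> simp [h, hA, hB])
    refine hmono _ h1 _ (Set.union_subset ?_ ?_)
    · intro x hx
      exact Set.mem_iUnion.2 ⟨m₀, by simpa using hx⟩
    · intro x hx
      exact Set.mem_iUnion.2 ⟨m₁, by simpa [hm.symm] using hx⟩
  obtain ⟨r, hwo, hr⟩ := Cardinal.exists_ord_eq K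
  have hseg : ∀ x : K, #{y // r y x} ≤ #M := by
    intro x
    have h1 : Ordinal.typein r x < (#K).ord := hr ▸ Ordinal.typein_lt_type r x
    have h2 : (Ordinal.typein r x).card < #K := Cardinal.lt_ord.1 h1
    have h3 : #{y // r y x} < Order.succ #M := lt_of_lt_of_le h2 hK
    exact Order.lt_succ_iff.1 h3
  have he : ∀ x : K, ∃ e : {y // r y x} → M, Function.Injective e := by
    intro x
    obtain ⟨g⟩ := hseg x
    exact ⟨g, g.injective⟩
  choose e he using he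
  let B' : M → K → Set K := fun m y => {x | ∃ h : r y x, e x ⟨y, h⟩ = m}
  have hB' : ∀ y, ∃ m, B' m y ∉ J := by
    intro y
    by_contra hcon
    push Not at hcon
    apply hproper
    have h1 : (⋃ m, B' m y) ∈ J := hcomp _ hcon
    have h2 : ({y} : Set K) ∪ {x | r x y} ∈ J := hunion _ (hsing y) _ (hsmall _ (hseg y))
    refine hmono _ (hunion _ h1 _ h2) _ fun x _ => ?_
    rcases trichotomous_of r x y with h | h | h
    · exact Or.inr (Or.inr h)
    · exact Or.inr (Or.inl h)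
    · exact Or.inl (Set.mem_iUnion.2 ⟨e x ⟨y, h⟩, h, rfl⟩)
  choose m hm using hB'
  have hbig : ∃ m₀, #M < #{y | m y = m₀} := by
    by_contra hcon
    push Not at hcon
    apply hproper
    have h1 := hcomp (fun m₀ => {y | m y = m₀}) (fun m₀ => hsmall _ (hcon m₀))
    exact hmono _ h1 _ fun y _ => Set.mem_iUnion.2 ⟨m y, rfl⟩
  obtain ⟨m₀, hm₀⟩ := hbig
  refine ⟨{y | m y = m₀}, fun y => B' m₀ y, hm₀, ?_, ?_⟩
  · intro y _ y' _ hne
    refine Set.disjoint_left.2 ?_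
    rintro x ⟨h, h1⟩ ⟨h', h2⟩
    have h3 := he x (h1.trans h2.symm)
    exact hne (congrArg Subtype.val h3)
  · intro y hy
    have h1 : m y = m₀ := hy
    have h2 := hm y
    rwa [h1] at h2

/-- every proper ideal on `K` which contains the singletons and is closed under countable unions
has uncountably many pairwise disjoint positive sets -/
def NoSat (K : Type) : Prop :=
  ∀ J : Set (Set K), (∀ A ∈ J, ∀ B ⊆ A, B ∈ J) →
    (∀ A : ℕ → Set K, (∀ n, A n ∈ J) → (⋃ n, A n) ∈ J) → (∀ a : K, {a} ∈ J) → Set.univ ∉ J →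
      ∃ B : W1 → Set K, (∀ i j, i ≠ j → Disjoint (B i) (B j)) ∧ ∀ i, B i ∉ J

theorem of_family {K : Type} {J : Set (Set K)} {Y : Set K} {B : K → Set K} (hY : ℵ_ 1 ≤ #Y)
    (hd : ∀ y ∈ Y, ∀ y' ∈ Y, y ≠ y' → Disjoint (B y) (B y')) (hB : ∀ y ∈ Y, B y ∉ J) :
    ∃ B : W1 → Set K, (∀ i j, i ≠ j → Disjoint (B i) (B j)) ∧ ∀ i, B i ∉ J := by
  rw [← mk_W1] at hY
  obtain ⟨g⟩ := hY
  refine ⟨fun i => B (g i), fun i j hij => ?_, fun i => hB _ (g i).2⟩
  refine hd _ (g i).2 _ (g j).2 fun h => hij (g.injective (Subtype.ext h))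

theorem aleph_one_eq : (ℵ_ 1 : Cardinal.{0}) = Order.succ ℵ₀ := by
  rw [← Cardinal.aleph_zero, succ_aleph, zero_add]

theorem noSat_one {K : Type} (hK : #K ≤ ℵ_ 1) : NoSat K := by
  intro J hmono hcomp hsing hproper
  by_cases hne : Nonempty K
  · obtain ⟨Y, B, hY, hd, hB⟩ := ulam (M := ℕ) (by rw [mk_nat])
      (by rw [mk_nat, ← aleph_one_eq]; exact hK) hmono hcomp hsing hproper
    refine of_family ?_ hd hB
    rw [aleph_one_eq, Order.succ_le_iff]
    rwa [mk_nat] at hY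
  · refine ⟨fun _ => Set.univ, fun i j _ => ?_, fun _ => hproper⟩
    exact Set.disjoint_left.2 fun x => absurd ⟨x⟩ hne

theorem noSat_two {K : Type} (hK : #K ≤ ℵ_ 2) : NoSat K := by
  classical
  intro J hmono hcomp hsing hproper
  by_cases hne : Nonempty K
  swap
  · refine ⟨fun _ => Set.univ, fun i j _ => ?_, fun _ => hproper⟩
    exact Set.disjoint_left.2 fun x => absurd ⟨x⟩ hne
  by_cases hc : ∀ A : W1 → Set K, (∀ m, A m ∈ J) → (⋃ m, A m) ∈ J
  · have h2 : (ℵ_ 2 : Cardinal.{0}) = Order.succ (ℵ_ 1) := by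
      rw [succ_aleph, one_add_one_eq_two]
    obtain ⟨Y, B, hY, hd, hB⟩ := ulam (M := W1) (by rw [mk_W1]; exact aleph0_le_aleph 1)
      (by rw [mk_W1, ← h2]; exact hK) hmono hc hsing hproper
    rw [mk_W1] at hY
    exact of_family hY.le hd hB
  · push Not at hc
    obtain ⟨N, hN, hU⟩ := hc
    have h1 : ∀ x : K, ∃ i, x ∈ (⋃ i, N i) → x ∈ N i := by
      intro x
      by_cases hx : x ∈ ⋃ i, N i
      · obtain ⟨i, hi⟩ := Set.mem_iUnion.1 hx
        exact ⟨i, fun _ => hi⟩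
      · have : Nonempty W1 := by
          rw [← mk_ne_zero_iff, mk_W1]
          exact (aleph_pos 1).ne'
        exact ⟨Classical.arbitrary W1, fun h => absurd h hx⟩
    choose f hf using h1
    let J' : Set (Set W1) := {S | {x | x ∈ (⋃ i, N i) ∧ f x ∈ S} ∈ J}
    obtain ⟨B, hB, hB'⟩ := noSat_one (K := W1) (by rw [mk_W1]) J'
      (fun A hA B hBA => hmono _ hA _ fun x hx => ⟨hx.1, hBA hx.2⟩)
      (fun A hA => by
        refine hmono _ (hcomp _ hA) _ fun x hx => ?_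
        obtain ⟨n, hn⟩ := Set.mem_iUnion.1 hx.2
        exact Set.mem_iUnion.2 ⟨n, hx.1, hn⟩)
      (fun i => hmono _ (hN i) _ fun x hx => by
        have h2 : f x = i := hx.2
        exact h2 ▸ hf x hx.1)
      (fun h => hU (hmono _ h _ fun x hx => ⟨hx, Set.mem_univ _⟩))
    refine ⟨fun i => {x | x ∈ (⋃ i, N i) ∧ f x ∈ B i}, fun i j hij => ?_, fun i => hB' i⟩
    exact Set.disjoint_left.2 fun x hx hx' => Set.disjoint_left.1 (hB i j hij) hx.2 hx'.2

end Pool.Agent.Y467.CC
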