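import Pool.Agent.Y467.CC.Game

/-!
# Cohen forcing and random forcing
-/

namespace Pool.Agent.Y467.CC

open Cardinal Pool.Agent.Helper669.Forcing Pool.Agent.W872.CC MeasureTheory

theorem ccc_of_countable {P : Type} [Preorder P] [Countable P] : CCC P :=
  fun A _ => A.to_countable

/-- the Cohen real -/
def cohenReal (n a : ℕ) : Set Coh := {s | n < s.bits.length ∧ (s.bits.reverse.getD n false).toNat = a}

theorem cohenReal_down {s t : Coh} (h : t ≤ s) {n a : ℕ} (hs : s ∈ cohenReal n a) :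
    t ∈ cohenReal n a := by
  obtain ⟨w, hw⟩ := h
  obtain ⟨h1, h2⟩ := hs
  refine ⟨?_, ?_⟩
  · rw [← hw, List.length_append]
    omega
  · rw [← hw, List.reverse_append, List.getD_append _ _ _ _ (by simpa using h1)]
    exact h2

theorem cohen_addsReal : AddsReal Coh := by
  intro p
  refine mem_fex.2 fun q _ => ⟨q, le_rfl, cohenReal, ⟨fun n => mem_fex.2 fun r _ => ?_,
    fun n a b => mem_fimp.2 fun r _ h => ⟨r, le_rfl, ?_⟩⟩, fun f r _ hr => ?_⟩
  · refine ⟨⟨List.replicate (n + 1) false ++ r.bits⟩, ⟨_, rfl⟩, _, meets_of_mem ⟨?_, rfl⟩⟩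
    simp
    omega
  · obtain ⟨s, hs, u, hu, hsu⟩ := h.1 r le_rfl
    obtain ⟨t, ht, v, hv, htv⟩ := h.2 s hs
    have h1 := cohenReal_down (ht.trans hsu) hu
    have h2 := cohenReal_down htv hv
    exact h1.2.symm.trans h2.2
  · have h1 := hr r.bits.length
    let b : Bool := decide (f r.bits.length = 0)
    obtain ⟨s, hs, u, hu, hsu⟩ := h1 ⟨b :: r.bits⟩ ⟨[b], rfl⟩
    have h2 := cohenReal_down hsu hu
    have h3 : (⟨b :: r.bits⟩ : Coh) ∈ cohenReal r.bits.length b.toNat := by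
      refine ⟨by simp, ?_⟩
      simp
    have h4 := cohenReal_down hs h3
    have h5 : b.toNat = f r.bits.length := h4.2.symm.trans h2.2
    by_cases h6 : f r.bits.length = 0
    · simp [b, h6] at h5
    · simp only [b, h6, decide_false, Bool.toNat_false] at h5
      exact h6 h5.symm

/-- Random forcing: measurable subsets of the unit interval which have positive measure,
ordered by inclusion. -/
def Rand : Type := {A : Set ℝ // MeasurableSet A ∧ A ⊆ Set.Icc 0 1 ∧ 0 < volume A}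

instance : Preorder Rand where
  le A B := A.1 ⊆ B.1
  le_refl A := Set.Subset.refl A.1
  le_trans _ _ _ h h' := Set.Subset.trans h h'

instance : Nonempty Rand := ⟨⟨Set.Icc 0 1, measurableSet_Icc, subset_rfl, by simp⟩⟩

theorem rand_ccc : CCC Rand := by
  intro A hA
  have h1 : Pairwise (Function.onFun (AEDisjoint volume) fun p : A => p.1.1) := by
    intro p q hpq
    by_contra h
    have h2 : 0 < volume (p.1.1 ∩ q.1.1) := pos_iff_ne_zero.2 h
    refine hpq (Subtype.ext (hA p.1 p.2 q.1 q.2 ⟨⟨p.1.1 ∩ q.1.1, p.1.2.1.inter q.1.2.1,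
      Set.inter_subset_left.trans p.1.2.2.1, h2⟩, Set.inter_subset_left, Set.inter_subset_right⟩))
  have h2 := Measure.countable_meas_pos_of_disjoint_iUnion₀ (μ := (volume : Measure ℝ))
    (fun p : A => p.1.2.1.nullMeasurableSet) h1
  have h3 : {p : A | 0 < volume p.1.1} = Set.univ := by
    rw [Set.eq_univ_iff_forall]
    exact fun p => p.1.2.2.2
  rw [h3] at h2
  exact Set.countable_coe_iff.1 (Set.countable_univ_iff.1 h2)

/-- the random real, given by its binary approximations -/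
def randReal (n a : ℕ) : Set Rand := {A | ∀ t ∈ A.1, ⌊t * 2 ^ n⌋₊ = a}

theorem meas_cell (n a : ℕ) : MeasurableSet {t : ℝ | ⌊t * 2 ^ n⌋₊ = a} := by
  have h1 : Measurable fun t : ℝ => ⌊t * 2 ^ n⌋₊ := Nat.measurable_floor.comp (by fun_prop)
  exact h1 (measurableSet_singleton a)

theorem rand_addsReal : AddsReal Rand := by
  intro p
  refine mem_fex.2 fun q _ => ⟨q, le_rfl, randReal, ⟨fun n => mem_fex.2 fun r _ => ?_,
    fun n a b => mem_fimp.2 fun r _ h => ⟨r, le_rfl, ?_⟩⟩, fun f r _ hr => ?_⟩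
  · have h1 : ∃ a : ℕ, 0 < volume (r.1 ∩ {t : ℝ | ⌊t * 2 ^ n⌋₊ = a}) := by
      by_contra hcon
      push Not at hcon
      have h2 : volume (⋃ a : ℕ, r.1 ∩ {t : ℝ | ⌊t * 2 ^ n⌋₊ = a}) = 0 :=
        measure_iUnion_null fun a => le_antisymm (hcon a) zero_le
      have h3 : r.1 ⊆ ⋃ a : ℕ, r.1 ∩ {t : ℝ | ⌊t * 2 ^ n⌋₊ = a} := fun t ht =>
        Set.mem_iUnion.2 ⟨_, ht, rfl⟩
      exact absurd (measure_mono_null h3 h2) r.2.2.2.ne'
    obtain ⟨a, ha⟩ := h1
    exact ⟨⟨_, r.2.1.inter (meas_cell n a), Set.inter_subset_left.trans r.2.2.1, ha⟩,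
      Set.inter_subset_left, a, meets_of_mem fun t ht => ht.2⟩
  · obtain ⟨s, hs, u, hu, hsu⟩ := h.1 r le_rfl
    obtain ⟨t, ht, v, hv, htv⟩ := h.2 s hs
    have h1 : t.1.Nonempty := by
      by_contra h2
      rw [Set.not_nonempty_iff_eq_empty] at h2
      have h3 := t.2.2.2
      rw [h2] at h3
      simp at h3
    obtain ⟨y, hy⟩ := h1
    exact (hu y (hsu (ht hy))).symm.trans (hv y (htv hy))
  · have h1 : ∀ n, volume r.1 ≤ ENNReal.ofReal ((1 / 2) ^ n) := by
      intro n
      have h2 : volume (r.1 \ {t : ℝ | ⌊t * 2 ^ n⌋₊ = f n}) = 0 := by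
        by_contra h3
        obtain ⟨s, hs, u, hu, hsu⟩ := hr n ⟨_, r.2.1.diff (meas_cell n (f n)),
          Set.sdiff_subset.trans r.2.2.1, pos_iff_ne_zero.2 h3⟩ Set.sdiff_subset
        have h4 : s.1.Nonempty := by
          by_contra h2
          rw [Set.not_nonempty_iff_eq_empty] at h2
          have h3 := s.2.2.2
          rw [h2] at h3
          simp at h3
        obtain ⟨y, hy⟩ := h4
        exact (hs hy).2 (hu y (hsu hy))
      have h3 : r.1 ∩ {t : ℝ | ⌊t * 2 ^ n⌋₊ = f n} ⊆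
          Set.Icc ((f n : ℝ) / 2 ^ n) (((f n : ℝ) + 1) / 2 ^ n) := by
        rintro t ⟨ht, ht'⟩
        have h4 : 0 ≤ t := (r.2.2.1 ht).1
        have h5 : (0 : ℝ) < 2 ^ n := by positivity
        have h6 : ⌊t * 2 ^ n⌋₊ = f n := ht'
        have h7 := Nat.floor_le (mul_nonneg h4 h5.le)
        have h8 := (Nat.lt_floor_add_one (t * 2 ^ n)).le
        rw [h6] at h7 h8
        exact ⟨(div_le_iff₀ h5).2 h7, (le_div_iff₀ h5).2 h8⟩
      calc volume r.1 ≤ volume ((r.1 ∩ {t : ℝ | ⌊t * 2 ^ n⌋₊ = f n}) ∪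
            (r.1 \ {t : ℝ | ⌊t * 2 ^ n⌋₊ = f n})) :=
            measure_mono (by rw [Set.inter_union_sdiff])
        _ ≤ volume (r.1 ∩ {t : ℝ | ⌊t * 2 ^ n⌋₊ = f n}) +
            volume (r.1 \ {t : ℝ | ⌊t * 2 ^ n⌋₊ = f n}) := measure_union_le _ _
        _ ≤ volume (Set.Icc ((f n : ℝ) / 2 ^ n) (((f n : ℝ) + 1) / 2 ^ n)) := by
            rw [h2, add_zero]
            exact measure_mono h3
        _ = ENNReal.ofReal ((1 / 2) ^ n) := by
            rw [Real.volume_Icc]
            congr 1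
            rw [← sub_div, add_sub_cancel_left, one_div, one_div, inv_pow]
    have h2 : volume r.1 = 0 := by
      have h3 : Filter.Tendsto (fun n : ℕ => ENNReal.ofReal ((1 / 2 : ℝ) ^ n)) Filter.atTop
          (nhds (ENNReal.ofReal 0)) :=
        (ENNReal.continuous_ofReal.tendsto 0).comp
          (tendsto_pow_atTop_nhds_zero_of_lt_one (by norm_num) (by norm_num))
      rw [ENNReal.ofReal_zero] at h3
      exact le_antisymm (ge_of_tendsto' h3 h1) zero_le
    exact absurd h2 r.2.2.2.ne'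

theorem mk_rand : #Rand ≤ 𝔠 := by
  have h1 : #{A : Set ℝ // MeasurableSet A} ≤ 𝔠 := by
    have h2 : (inferInstance : MeasurableSpace ℝ) = MeasurableSpace.generateFrom
        (⋃ (a : ℚ) (b : ℚ) (_ : a < b), {Set.Ioo (a : ℝ) (b : ℝ)}) := by
      rw [← Real.borel_eq_generateFrom_Ioo_rat]
      exact BorelSpace.measurable_eq
    have h3 : (⋃ (a : ℚ) (b : ℚ) (_ : a < b), {Set.Ioo (a : ℝ) (b : ℝ)} :
        Set (Set ℝ)).Countable :=
      Set.countable_iUnion fun a => Set.countable_iUnion fun b => Set.countable_iUnion fun _ =>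
        Set.countable_singleton _
    have h4 := MeasurableSpace.cardinal_measurableSet_le_continuum
      (s := (⋃ (a : ℚ) (b : ℚ) (_ : a < b), {Set.Ioo (a : ℝ) (b : ℝ)} : Set (Set ℝ)))
      (h3.le_aleph0.trans aleph0_le_continuum)
    rw [← h2] at h4
    exact h4
  have h5 : #Rand ≤ #{A : Set ℝ // MeasurableSet A} :=
    mk_le_of_injective (f := fun A : Rand => (⟨A.1, A.2.1⟩ : {A : Set ℝ // MeasurableSet A}))
      fun A B h => by
        have h6 : A.1 = B.1 := congrArg (fun C : {A : Set ℝ // MeasurableSet A} => C.1) h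
        exact Subtype.ext h6
  exact h5.trans h1

end Pool.Agent.Y467.CC
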