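import Pool.Agent.W872.CC.Run
import Pool.Agent.Y467.CC.Comb

/-!
# Forcing notions with the countable chain condition which add a real
-/

namespace Pool.Agent.Y467.CC

open Cardinal Pool.Agent.Helper669.Forcing Pool.Agent.W872.CC

section

variable {P : Type} [Preorder P] {K : Type}

/-- every condition forces: some function from `ℕ` to `ℕ` does not belong to the ground model -/
def AddsReal (P : Type) [Preorder P] : Prop :=
  ∀ p : P, p ∈ fex fun x : ℕ → ℕ → Set P =>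
    fand (IsFun x) (fall fun f : ℕ → ℕ => fnot (fall fun n => meets (x n (f n))))

/-- some extension of the position has its current set inside `U` -/
def Hit (σ : List (K → Set P) → Set P) (q : P) (l : List (Set K)) (U : Set K) : Prop :=
  ∃ q' ≤ q, ∃ l', l <:+ l' ∧ Ok σ q' l' ∧ cur σ q' l' ⊆ U

/-- `b` forces that some extension of the position has its current set inside `U` -/
def Fat (σ : List (K → Set P) → Set P) (b : P) (l : List (Set K)) (U : Set K) : Prop :=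
  ∀ q ≤ b, Hit σ q l U

/-- there are disjoint subsets of `A`, and `b` forces that uncountably many are reached -/
def Good (σ : List (K → Set P) → Set P) (b : P) (l : List (Set K)) (A : Set K) : Prop :=
  ∃ U : W1 → Set K, (∀ i, U i ⊆ A) ∧ (∀ i j, i ≠ j → Disjoint (U i) (U j)) ∧
    ∀ q ≤ b, ¬ {i | Hit σ q l (U i)}.Countable

variable {σ : List (K → Set P) → Set P}

theorem Hit.mono_left {q q' : P} (hq : q' ≤ q) {l : List (Set K)} {U : Set K}
    (h : Hit σ q' l U) : Hit σ q l U := by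
  obtain ⟨r, hr, h⟩ := h
  exact ⟨r, hr.trans hq, h⟩

theorem Hit.mono_right {q : P} {l : List (Set K)} {U V : Set K} (hUV : U ⊆ V)
    (h : Hit σ q l U) : Hit σ q l V := by
  obtain ⟨r, hr, l', h1, h2, h3⟩ := h
  exact ⟨r, hr, l', h1, h2, h3.trans hUV⟩

theorem exists_ok (l : List (Set K)) (q : P) : ∃ r ≤ q, Ok σ r l := by
  induction l with
  | nil => exact ⟨q, le_rfl, trivial⟩
  | cons B l ih =>
    obtain ⟨r, hr, h⟩ := ih
    obtain ⟨s, hs, h'⟩ := h.step B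
    exact ⟨s, hs.trans hr, h'⟩

theorem hit_univ (q : P) (l : List (Set K)) : Hit σ q l Set.univ := by
  obtain ⟨r, hr, h⟩ := exists_ok (σ := σ) l q
  exact ⟨r, hr, l, List.suffix_refl _, h, Set.subset_univ _⟩

/-- cut with the set `X` -/
theorem Hit.cut {q : P} {l : List (Set K)} {U : Set K} (h : Hit σ q l U) (X : Set K) :
    Hit σ q l (U \ X) ∨ Hit σ q l (U ∩ X) := by
  obtain ⟨r, hr, l', h1, h2, h3⟩ := h
  obtain ⟨s, hs, h4⟩ := h2.step X
  have h5 : cur σ s l' ⊆ U := by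
    rw [(h2.mono hs).2]
    exact h3
  by_cases h6 : s ∈ ans σ (X :: l')
  · right
    refine ⟨s, hs.trans hr, X :: l', h1.trans (List.suffix_cons _ _), h4, ?_⟩
    rw [cur_cons_of_mem h6]
    exact Set.inter_subset_inter_left _ h5
  · left
    refine ⟨s, hs.trans hr, X :: l', h1.trans (List.suffix_cons _ _), h4, ?_⟩
    rw [cur_cons_of_not_mem h6]
    exact Set.sdiff_subset_sdiff_left h5

variable {p₀ : P}

theorem not_hit_singleton (hw : ∀ A, p₀ ∈ ChooseWinsLe σ A) {q : P} (hq : q ≤ p₀)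
    (l : List (Set K)) (c : K) : ¬ Hit σ q l {c} := by
  rintro ⟨r, hr, l', -, h2, h3⟩
  obtain ⟨a, ha, b, hb, hab⟩ := two_left hw (hr.trans hq) h2
  have h4 : a = c := h3 ha
  have h5 : b = c := h3 hb
  exact hab (h4.trans h5.symm)

theorem Hit.iUnion (hw : ∀ A, p₀ ∈ ChooseWinsLe σ A) {q : P} (hq : q ≤ p₀)
    {l : List (Set K)} {A : ℕ → Set K} (h : Hit σ q l (⋃ n, A n)) : ∃ n, Hit σ q l (A n) := by
  by_contra hcon
  push Not at hcon
  obtain ⟨q', hq', l', hl', ho', hsub⟩ := h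
  have key : ∀ k, Ok σ q' (hist A k ++ l') ∧ ∀ i < k, Disjoint (cur σ q' (hist A k ++ l')) (A i) := by
    intro k
    induction k with
    | zero => exact ⟨ho', fun i hi => absurd hi (Nat.not_lt_zero _)⟩
    | succ k ih =>
      have h1 : q' ∈ fnot (ans σ (A k :: (hist A k ++ l'))) := by
        intro r hr h2
        refine hcon k ⟨r, hr.trans hq', A k :: (hist A k ++ l'), ?_, ⟨(ih.1.mono hr).1, Or.inl h2⟩,
          ?_⟩
        · exact (hl'.trans (List.suffix_append _ _)).trans (List.suffix_cons _ _)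
        · rw [cur_cons_of_mem h2]
          exact Set.inter_subset_right
      refine ⟨⟨ih.1, Or.inr h1⟩, fun i hi => ?_⟩
      change Disjoint (cur σ q' (A k :: (hist A k ++ l'))) (A i)
      rw [cur_cons_of_not_mem (h1 q' le_rfl)]
      rcases Nat.lt_succ_iff_lt_or_eq.1 hi with h | rfl
      · exact (ih.2 i h).mono_left Set.sdiff_subset
      · exact Set.disjoint_sdiff_left
  obtain ⟨r, hr, a, ha⟩ := mem_fex.1 ((hw fun n => chk P (app l' A n)).2) q' (hq'.trans hq)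
  have h1 : ∀ k, a ∈ cur σ q' (hist A k ++ l') := by
    intro k
    have h2 : Match r (fun n => chk P (app l' A n)) (hist A k ++ l') := by
      have := Match.chk (q := r) (app l' A) (l'.length + k)
      rwa [hist_app] at this
    have h3 := mem_cur (σ := σ) h2 (ha _)
    rwa [((key k).1.mono hr).2] at h3
  have h2 : a ∈ cur σ q' l' := h1 0
  obtain ⟨n, hn⟩ := Set.mem_iUnion.1 (hsub h2)
  exact Set.disjoint_left.1 ((key (n + 1)).2 n (Nat.lt_succ_self n)) (h1 (n + 1)) hn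

theorem not_countable_W1 : ¬ (Set.univ : Set W1).Countable := by
  intro h
  have h1 : #W1 ≤ ℵ₀ := by
    rw [← mk_univ]
    exact h.le_aleph0
  rw [mk_W1, aleph_one_eq] at h1
  exact absurd h1 (not_le_of_gt (Order.lt_succ _))

theorem exists_not_mem {C : Set W1} (hC : C.Countable) {S : Set W1} (hS : ¬ S.Countable) :
    ∃ i ∈ S, i ∉ C := by
  by_contra hcon
  push Not at hcon
  exact hS (hC.mono hcon)

theorem good_dense (hc : CCC P) (hsat : NoSat K) (hw : ∀ A, p₀ ∈ ChooseWinsLe σ A) {q : P}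
    (hq : q ≤ p₀) (l : List (Set K)) : ∃ b ≤ q, Good σ b l Set.univ := by
  obtain ⟨B, hB, hpos⟩ := hsat {A | ¬ Hit σ q l A}
    (fun A hA B hBA h => hA (h.mono_right hBA))
    (fun A hA h => by
      obtain ⟨n, hn⟩ := Hit.iUnion hw hq h
      exact hA n hn)
    (fun a => not_hit_singleton hw hq l a)
    (fun h => h (hit_univ q l))
  have hpos' : ∀ i, Hit σ q l (B i) := fun i => by
    by_contra h
    exact hpos i h
  suffices h : ∃ b ≤ q, ∀ r ≤ b, ¬ {i | Hit σ r l (B i)}.Countable by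
    obtain ⟨b, hb, h⟩ := h
    exact ⟨b, hb, B, fun i => Set.subset_univ _, hB, h⟩
  by_contra hcon
  push Not at hcon
  obtain ⟨A, hA, hAc, -, hpre⟩ := exists_max hc
    {d : P × Unit | {i | Hit σ d.1 l (B i)}.Countable} q (fun r hr => by
      obtain ⟨t, ht, h⟩ := hcon r hr
      exact ⟨(t, ()), h, ht⟩)
  have hE : (⋃ d ∈ A, {i | Hit σ d.1 l (B i)}).Countable := hAc.biUnion fun d hd => hA hd
  obtain ⟨i, -, hi⟩ := exists_not_mem hE not_countable_W1
  obtain ⟨r, hr, l', h1, h2, h3⟩ := hpos' i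
  obtain ⟨d, hd, t, ht, htd⟩ := hpre r hr
  refine hi (Set.mem_biUnion hd ⟨t, htd, l', h1, (h2.mono ht).1, ?_⟩)
  rw [(h2.mono ht).2]
  exact h3

theorem good_diff (hc : CCC P) {b : P} {l : List (Set K)} {A : Set K} (h : Good σ b l A)
    {X : W1 → Set K} (hX : ∀ i j, i ≠ j → Disjoint (X i) (X j)) :
    {k | ¬ Good σ b l (A \ X k)}.Countable := by
  obtain ⟨U, hUA, hU, hbig⟩ := h
  have h1 : ∀ k, ∃ q, ¬ Good σ b l (A \ X k) → q ≤ b ∧ {i | Hit σ q l (U i \ X k)}.Countable := by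
    intro k
    by_cases hk : Good σ b l (A \ X k)
    · exact ⟨b, fun h => absurd hk h⟩
    · by_contra hcon
      push Not at hcon
      refine hk ⟨fun i => U i \ X k, fun i => Set.sdiff_subset_sdiff_left (hUA i), fun i j hij =>
        (hU i j hij).mono Set.sdiff_subset Set.sdiff_subset, fun q hq => ?_⟩
      exact (hcon q).2 hq
  choose q hq using h1
  have hinj : ∀ k ∈ {k | ¬ Good σ b l (A \ X k)}, ∀ k' ∈ {k | ¬ Good σ b l (A \ X k)},
      (∃ r, r ≤ q k ∧ r ≤ q k') → k = k' := by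
    rintro k hk k' hk' ⟨t, ht, ht'⟩
    by_contra hne
    refine hbig t (ht.trans (hq k hk).1) ?_
    refine ((hq k hk).2.union (hq k' hk').2).mono ?_
    intro i hi
    have hi' : Hit σ t l (U i) := hi
    rcases hi'.cut (X k) with h | h
    · exact Or.inl (h.mono_left ht)
    · refine Or.inr ((h.mono_right ?_).mono_left ht')
      intro x hx
      exact ⟨hx.1, fun hx' => Set.disjoint_left.1 (hX k k' hne) hx.2 hx'⟩
  refine Set.countable_of_injective_of_countable_image (f := q) ?_ (hc _ ?_)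
  · intro k hk k' hk' h
    exact hinj k hk k' hk' ⟨q k, le_rfl, le_of_eq h⟩
  · rintro _ ⟨k, hk, rfl⟩ _ ⟨k', hk', rfl⟩ h
    rw [hinj k hk k' hk' h]

theorem good_fat (hc : CCC P) {b : P} {l : List (Set K)} {A : Set K} (h : Good σ b l A) :
    ∃ V : W1 → Set K, (∀ i, V i ⊆ A) ∧ (∀ i j, i ≠ j → Disjoint (V i) (V j)) ∧
      ∀ i, Fat σ b l (V i) := by
  obtain ⟨U, hUA, hU, hbig⟩ := h
  let S : Set (Set (Set W1)) :=
    {E | (∀ e ∈ E, e.Countable ∧ Fat σ b l (⋃ i ∈ e, U i)) ∧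
      ∀ e ∈ E, ∀ e' ∈ E, e ≠ e' → Disjoint e e'}
  have hz : ∃ E, Maximal (· ∈ S) E := by
    refine zorn_subset S fun c hcS hchain =>
      ⟨⋃₀ c, ⟨?_, ?_⟩, fun s hs => Set.subset_sUnion_of_mem hs⟩
    · rintro e ⟨s, hs, hes⟩
      exact (hcS hs).1 e hes
    · rintro e ⟨s, hs, hes⟩ e' ⟨t, ht, het⟩ hne
      rcases hchain.total hs ht with hst | hst
      · exact (hcS ht).2 e (hst hes) e' het hne
      · exact (hcS hs).2 e hes e' (hst het) hne
  obtain ⟨E, hE⟩ := hz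
  have hES : E ∈ S := hE.prop
  have hunc : ¬ E.Countable := by
    intro hEc
    have hC : (⋃₀ E).Countable := hEc.sUnion fun e he => (hES.1 e he).1
    obtain ⟨A', hA', hA'c, -, hpre⟩ := exists_max hc
      {d : P × W1 | d.2 ∉ ⋃₀ E ∧ ∃ l', l <:+ l' ∧ Ok σ d.1 l' ∧ cur σ d.1 l' ⊆ U d.2} b
      (fun r hr => by
        obtain ⟨i, hi, hi'⟩ := exists_not_mem hC (hbig r hr)
        obtain ⟨q, hq, l', h⟩ := hi
        exact ⟨(q, i), ⟨hi', l', h⟩, hq⟩)
    have hne : (Prod.snd '' A').Nonempty := by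
      obtain ⟨d, hd, -⟩ := hpre b le_rfl
      exact ⟨_, d, hd, rfl⟩
    have hdis : ∀ i ∈ Prod.snd '' A', i ∉ ⋃₀ E := by
      rintro _ ⟨d, hd, rfl⟩
      exact (hA' hd).1
    have hfat : Fat σ b l (⋃ i ∈ Prod.snd '' A', U i) := by
      intro q hq
      obtain ⟨d, hd, t, ht, htd⟩ := hpre q hq
      obtain ⟨-, l', h1, h2, h3⟩ := hA' hd
      refine ⟨t, ht, l', h1, (h2.mono htd).1, ?_⟩
      rw [(h2.mono htd).2]
      exact h3.trans (Set.subset_biUnion_of_mem (u := U) (Set.mem_image_of_mem Prod.snd hd))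
    have hins : insert (Prod.snd '' A') E ∈ S := by
      constructor
      · rintro e (rfl | he)
        · exact ⟨hA'c.image _, hfat⟩
        · exact hES.1 e he
      · rintro e (rfl | he) e' (rfl | he') hne'
        · exact absurd rfl hne'
        · exact Set.disjoint_left.2 fun i hi hi' => hdis i hi ⟨e', he', hi'⟩
        · exact Set.disjoint_left.2 fun i hi hi' => hdis i hi' ⟨e, he, hi⟩
        · exact hES.2 e he e' he' hne'
    have h2 : insert (Prod.snd '' A') E ⊆ E := hE.le_of_ge hins (Set.subset_insert _ E)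
    obtain ⟨i, hi⟩ := hne
    exact hdis i hi ⟨_, h2 (Set.mem_insert _ _), hi⟩
  have hcard : #W1 ≤ #E := by
    rw [mk_W1, aleph_one_eq, Order.succ_le_iff]
    by_contra h
    exact hunc (Cardinal.le_aleph0_iff_set_countable.1 (not_lt.1 h))
  obtain ⟨g⟩ := hcard
  refine ⟨fun i => ⋃ j ∈ (g i : Set W1), U j, fun i => Set.iUnion₂_subset fun j _ => hUA j,
    fun i j hij => ?_, fun i => (hES.1 _ (g i).2).2⟩
  rw [Set.disjoint_left]
  intro x hx hx'
  obtain ⟨a, ha, hxa⟩ := Set.mem_iUnion₂.1 hx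
  obtain ⟨a', ha', hxa'⟩ := Set.mem_iUnion₂.1 hx'
  have h1 : a = a' := by
    by_contra hne
    exact Set.disjoint_left.1 (hU a a' hne) hxa hxa'
  have h2 : (g i : Set W1) ≠ (g j : Set W1) := fun h => hij (g.injective (Subtype.ext h))
  exact Set.disjoint_left.1 (hES.2 _ (g i).2 _ (g j).2 h2) ha (h1 ▸ ha')

/-- disjoint sets which are reached from countably many positions -/
theorem select (hc : CCC P) (b : ℕ → P) (l : ℕ → List (Set K))
    (h : ∀ n, Good σ (b n) (l n) Set.univ) :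
    ∃ X : ℕ → Set K, (∀ m n, m ≠ n → Disjoint (X m) (X n)) ∧ ∀ n, Fat σ (b n) (l n) (X n) := by
  have step : ∀ (n : ℕ) (A : {A : Set K // ∀ m, Good σ (b m) (l m) A}),
      ∃ X : Set K, X ⊆ A.1 ∧ Fat σ (b n) (l n) X ∧ ∀ m, Good σ (b m) (l m) (A.1 \ X) := by
    rintro n ⟨A, hA⟩
    obtain ⟨V, hVA, hV, hfat⟩ := good_fat hc (hA n)
    have h1 : (⋃ m, {k | ¬ Good σ (b m) (l m) (A \ V k)}).Countable :=
      Set.countable_iUnion fun m => good_diff hc (hA m) hV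
    obtain ⟨k, -, hk⟩ := exists_not_mem h1 not_countable_W1
    refine ⟨V k, hVA k, hfat k, fun m => ?_⟩
    by_contra hm
    exact hk (Set.mem_iUnion.2 ⟨m, hm⟩)
  choose X hXA hXf hXg using step
  let A : ℕ → {A : Set K // ∀ m, Good σ (b m) (l m) A} := fun n =>
    Nat.rec ⟨Set.univ, h⟩ (fun n A => ⟨A.1 \ X n A, hXg n A⟩) n
  have hA : ∀ n, (A (n + 1)).1 = (A n).1 \ X n (A n) := fun n => rfl
  have hanti : ∀ m n, m ≤ n → (A n).1 ⊆ (A m).1 := by
    intro m n hmn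
    induction n, hmn using Nat.le_induction with
    | base => exact subset_rfl
    | succ n _ ih => exact (hA n ▸ Set.sdiff_subset).trans ih
  have hlt : ∀ m n, m < n → Disjoint (X m (A m)) (X n (A n)) := by
    intro m n hmn
    have h1 : X n (A n) ⊆ (A m).1 \ X m (A m) := (hXA n (A n)).trans (hanti (m + 1) n hmn)
    exact Set.disjoint_left.2 fun x hx hx' => (h1 hx').2 hx
  refine ⟨fun n => X n (A n), fun m n hmn => ?_, fun n => hXf n (A n)⟩
  rcases lt_or_gt_of_ne hmn with h1 | h1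
  · exact hlt m n h1
  · exact (hlt n m h1).symm

/-- one function splits countably many positions -/
theorem split_all (hc : CCC P) (hsat : NoSat K) (hw : ∀ A, p₀ ∈ ChooseWinsLe σ A) {p : P}
    (hp : p ≤ p₀) {L : Set (List (Set K))} (hL : L.Countable) :
    ∃ F : K → ℕ, ∀ l ∈ L, ∀ m, Fat σ p l {a | F a = m} := by
  classical
  rcases Set.eq_empty_or_nonempty L with rfl | hne
  · exact ⟨fun _ => 0, fun l hl => absurd hl (Set.notMem_empty l)⟩
  have h1 : ∀ l : List (Set K), ∃ A : Set (P × Unit), A.Countable ∧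
      (∀ d ∈ A, Good σ d.1 l Set.univ) ∧ ∀ r ≤ p, ∃ d ∈ A, ∃ t, t ≤ r ∧ t ≤ d.1 := by
    intro l
    obtain ⟨A, hA, hAc, -, hpre⟩ := exists_max hc {d : P × Unit | Good σ d.1 l Set.univ} p
      (fun r hr => by
        obtain ⟨b, hb, h⟩ := good_dense hc hsat hw (hr.trans hp) l
        exact ⟨(b, ()), h, hb⟩)
    exact ⟨A, hAc, fun d hd => hA hd, hpre⟩
  choose A hAc hAg hpre using h1
  let T : Set (List (Set K) × P × ℕ) := ⋃ l ∈ L, ⋃ d ∈ A l, Set.range fun m : ℕ => (l, d.1, m)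
  have hT : T.Countable :=
    hL.biUnion fun l _ => (hAc l).biUnion fun d _ => Set.countable_range _
  have hmemT : ∀ l ∈ L, ∀ d ∈ A l, ∀ m : ℕ, (l, d.1, m) ∈ T := fun l hl d hd m =>
    Set.mem_biUnion hl (Set.mem_biUnion hd ⟨m, rfl⟩)
  have hTne : T.Nonempty := by
    obtain ⟨l, hl⟩ := hne
    obtain ⟨d, hd, -⟩ := hpre l p le_rfl
    exact ⟨_, hmemT l hl d hd 0⟩
  obtain ⟨f, hf⟩ := hT.exists_eq_range hTne
  have hTg : ∀ t ∈ T, Good σ t.2.1 t.1 Set.univ := by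
    intro t ht
    obtain ⟨l, hl, ht⟩ := Set.mem_iUnion₂.1 ht
    obtain ⟨d, hd, m, rfl⟩ := Set.mem_iUnion₂.1 ht
    exact hAg l d hd
  obtain ⟨X, hX, hXf⟩ := select hc (fun n => (f n).2.1) (fun n => (f n).1)
    (fun n => hTg _ (hf ▸ Set.mem_range_self n))
  refine ⟨fun a => if h : ∃ n, a ∈ X n then (f h.choose).2.2 else 0, fun l hl m q hq => ?_⟩
  obtain ⟨d, hd, t, ht, htd⟩ := hpre l q hq
  have h2 : (l, d.1, m) ∈ Set.range f := hf ▸ hmemT l hl d hd m
  obtain ⟨n, hn⟩ := h2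
  have h3 := hXf n t (by rw [hn]; exact htd)
  rw [hn] at h3
  refine (h3.mono_right ?_).mono_left ht
  intro a ha
  have h4 : ∃ n, a ∈ X n := ⟨n, ha⟩
  have h5 : h4.choose = n := by
    by_contra hne'
    exact Set.disjoint_left.1 (hX _ _ hne') h4.choose_spec ha
  change (if h : ∃ n, a ∈ X n then (f h.choose).2.2 else 0) = m
  rw [dif_pos h4, h5, hn]

/-! ### The generic run -/

/-- a level of the tree of positions -/
structure Lev (σ : List (K → Set P) → Set P) (p₁ : P) (N : Set (P × List (Set K))) : Prop where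
  cnt : N.Countable
  anti : ∀ d ∈ N, ∀ e ∈ N, (∃ r, r ≤ d.1 ∧ r ≤ e.1) → d = e
  pre : ∀ r ≤ p₁, ∃ d ∈ N, ∃ t, t ≤ r ∧ t ≤ d.1
  ok : ∀ d ∈ N, d.1 ≤ p₁ ∧ Ok σ d.1 d.2

/-- the next level -/
def Nxt (σ : List (K → Set P) → Set P) (x : ℕ → Set P) (F : K → ℕ)
    (N N' : Set (P × List (Set K))) : Prop :=
  ∀ e ∈ N', ∃ d ∈ N, e.1 ≤ d.1 ∧ d.2 <:+ e.2 ∧
    ∃ m, e.1 ∈ meets (x m) ∧ cur σ e.1 e.2 ⊆ {a | F a = m}

theorem lev_step (hc : CCC P) (hsat : NoSat K) (hw : ∀ A, p₀ ∈ ChooseWinsLe σ A) {p₁ : P}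
    (hp : p₁ ≤ p₀) {x : ℕ → Set P} (hx : p₁ ∈ fex fun m => meets (x m))
    {N : Set (P × List (Set K))} (hN : Lev σ p₁ N) :
    ∃ N' F, Lev σ p₁ N' ∧ Nxt σ x F N N' := by
  obtain ⟨F, hF⟩ := split_all hc hsat hw hp (hN.cnt.image Prod.snd)
  let D : Set (P × (List (Set K) × (P × List (Set K)))) :=
    {z | z.2.2 ∈ N ∧ z.1 ≤ z.2.2.1 ∧ z.2.2.2 <:+ z.2.1 ∧ Ok σ z.1 z.2.1 ∧
      ∃ m, z.1 ∈ meets (x m) ∧ cur σ z.1 z.2.1 ⊆ {a | F a = m}}
  obtain ⟨A, hA, hAc, hanti, hpre⟩ := exists_max hc D p₁ (fun r hr => by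
    obtain ⟨d, hd, t, ht, htd⟩ := hN.pre r hr
    obtain ⟨s, hs, m, hm⟩ := mem_fex.1 hx t (ht.trans hr)
    obtain ⟨q, hq, l', h1, h2, h3⟩ := hF d.2 (Set.mem_image_of_mem _ hd) m s
      (hs.trans (ht.trans hr))
    exact ⟨(q, l', d), ⟨hd, (hq.trans hs).trans htd, h1, h2, m, down_meets _ _ hm _ hq, h3⟩,
      (hq.trans hs).trans ht⟩)
  refine ⟨(fun z => (z.1, z.2.1)) '' A, F, ⟨hAc.image _, ?_, ?_, ?_⟩, ?_⟩
  · rintro _ ⟨z, hz, rfl⟩ _ ⟨z', hz', rfl⟩ h
    rw [hanti z hz z' hz' h]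
  · intro r hr
    obtain ⟨z, hz, t, ht, htz⟩ := hpre r hr
    exact ⟨_, ⟨z, hz, rfl⟩, t, ht, htz⟩
  · rintro _ ⟨z, hz, rfl⟩
    have h := hA hz
    exact ⟨h.2.1.trans (hN.ok _ h.1).1, h.2.2.2.1⟩
  · rintro _ ⟨z, hz, rfl⟩
    have h := hA hz
    exact ⟨z.2.2, h.1, h.2.1, h.2.2.1, h.2.2.2.2⟩

theorem lev_zero (σ : List (K → Set P) → Set P) (p₁ : P) : Lev σ p₁ {(p₁, [])} where
  cnt := Set.countable_singleton _
  anti := by
    rintro _ rfl _ rfl _
    rfl
  pre := fun r hr => ⟨_, rfl, r, le_rfl, hr⟩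
  ok := by
    rintro _ rfl
    exact ⟨le_rfl, trivial⟩

theorem exists_levels (hc : CCC P) (hsat : NoSat K) (hw : ∀ A, p₀ ∈ ChooseWinsLe σ A) {p₁ : P}
    (hp : p₁ ≤ p₀) {x : ℕ → ℕ → Set P} (hx : p₁ ∈ IsFun x) :
    ∃ (N : ℕ → Set (P × List (Set K))) (F : ℕ → K → ℕ), (∀ n, Lev σ p₁ (N n)) ∧
      ∀ n, Nxt σ (x n) (F n) (N n) (N (n + 1)) := by
  have step : ∀ (n : ℕ) (N : {N : Set (P × List (Set K)) // Lev σ p₁ N}),
      ∃ N' F, Lev σ p₁ N' ∧ Nxt σ (x n) F N.1 N' := fun n N => lev_step hc hsat hw hp (hx.1 n) N.2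
  choose N' F hL hNx using step
  let N : ℕ → {N : Set (P × List (Set K)) // Lev σ p₁ N} := fun n =>
    Nat.rec ⟨_, lev_zero σ p₁⟩ (fun n N => ⟨N' n N, hL n N⟩) n
  exact ⟨fun n => (N n).1, fun n => F n (N n), fun n => (N n).2, fun n => hNx n (N n)⟩

variable {p₁ : P} {x : ℕ → ℕ → Set P} {N : ℕ → Set (P × List (Set K))} {F : ℕ → K → ℕ}

theorem ancestor (hN : ∀ n, Nxt σ (x n) (F n) (N n) (N (n + 1))) {k : ℕ} (j : ℕ) :
    ∀ e ∈ N (k + j), ∃ d ∈ N k, e.1 ≤ d.1 ∧ d.2 <:+ e.2 := by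
  induction j with
  | zero => exact fun e he => ⟨e, he, le_rfl, List.suffix_refl _⟩
  | succ j ih =>
    intro e he
    obtain ⟨d, hd, h1, h2, -⟩ := hN (k + j) e he
    obtain ⟨c, hc, h3, h4⟩ := ih d hd
    exact ⟨c, hc, h1.trans h3, h4.trans h2⟩

theorem coherent (hL : ∀ n, Lev σ p₁ (N n)) (hN : ∀ n, Nxt σ (x n) (F n) (N n) (N (n + 1)))
    {k k' : ℕ} {d e : P × List (Set K)} (hd : d ∈ N k) (he : e ∈ N k') {t : P} (ht : t ≤ d.1)
    (ht' : t ≤ e.1) : d.2 <:+ e.2 ∨ e.2 <:+ d.2 := by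
  rcases le_total k k' with h | h
  · left
    obtain ⟨j, rfl⟩ := Nat.exists_eq_add_of_le h
    obtain ⟨c, hc, h1, h2⟩ := ancestor hN j e he
    rwa [(hL k).anti d hd c hc ⟨t, ht, ht'.trans h1⟩]
  · right
    obtain ⟨j, rfl⟩ := Nat.exists_eq_add_of_le h
    obtain ⟨c, hc, h1, h2⟩ := ancestor hN j d hd
    rwa [(hL k').anti e he c hc ⟨t, ht', ht.trans h1⟩]

/-- the name of the generic run -/
def genrun (N : ℕ → Set (P × List (Set K))) (n : ℕ) (a : K) : Set P :=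
  {q | ∃ k, ∃ l, (q, l) ∈ N k ∧ ∃ B l', (B :: l') <:+ l ∧ l'.length = n ∧ a ∈ B}

theorem match_genrun (hL : ∀ n, Lev σ p₁ (N n))
    (hN : ∀ n, Nxt σ (x n) (F n) (N n) (N (n + 1))) {k : ℕ} {q : P} {l : List (Set K)}
    (hd : (q, l) ∈ N k) : ∀ l₁, l₁ <:+ l → Match q (genrun N) l₁ := by
  intro l₁
  induction l₁ with
  | nil => exact fun _ => trivial
  | cons B l₁ ih =>
    intro hl
    refine ⟨ih ((List.suffix_cons B l₁).trans hl), mem_SameSet.2 fun a r hr => ?_⟩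
    rw [mem_meets_chk]
    constructor
    · intro h
      obtain ⟨s, hs, q', ⟨k', l', hd', B', l'', h1, h2, h3⟩, hsq⟩ := h r le_rfl
      have h4 : ∃ L, (B' :: l'') <:+ L ∧ (B :: l₁) <:+ L := by
        rcases coherent hL hN hd hd' (t := s) (hs.trans hr) hsq with h | h
        · exact ⟨l', h1, hl.trans h⟩
        · exact ⟨l, h1.trans h, hl⟩
      obtain ⟨L, h5, h6⟩ := h4
      have h7 : B :: l₁ = B' :: l'' := by
        rcases List.suffix_or_suffix_of_suffix h5 h6 with h8 | h8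
        · exact (h8.eq_of_length (by simp [h2])).symm
        · exact h8.eq_of_length (by simp [h2])
      rw [(List.cons.inj h7).1]
      exact h3
    · intro h
      exact meets_of_le (s := q) ⟨k, l, hd, B, l₁, hl, rfl, h⟩ hr

theorem no_strategyLe (hc : CCC P) (hsat : NoSat K) (hr : AddsReal P) (p : P) :
    p ∈ fnot (ChooseHasStrategyLe P K) := by
  intro q _ hmem
  obtain ⟨p₀, _, σ, hw⟩ := mem_fex.1 hmem q le_rfl
  have hw' : ∀ A, p₀ ∈ ChooseWinsLe σ A := hw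
  obtain ⟨p₁, hp₁, x, hx, hnew⟩ := mem_fex.1 (hr p₀) p₀ le_rfl
  obtain ⟨N, F, hL, hN⟩ := exists_levels hc hsat hw' hp₁ hx
  obtain ⟨r, hr, a, ha⟩ := mem_fex.1 (hw' (genrun N)).2 p₁ hp₁
  refine hnew (fun n => F n a) r hr fun n => ?_
  refine (reg_meets _).dense r fun s hs => ?_
  obtain ⟨e, he, t, ht, hte⟩ := (hL (n + 1)).pre s (hs.trans hr)
  obtain ⟨-, -, -, -, m, hm, hsub⟩ := hN n e he
  refine ⟨t, ht, ?_⟩
  have h1 : a ∈ cur σ t e.2 :=
    mem_cur ((match_genrun hL hN (q := e.1) (l := e.2) he e.2 (List.suffix_refl _)).mono hte)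
      (down_InCur _ _ _ _ _ (ha _) _ (ht.trans hs))
  rw [(((hL (n + 1)).ok e he).2.mono hte).2] at h1
  have h2 : F n a = m := hsub h1
  change t ∈ meets (x n (F n a))
  rw [h2]
  exact down_meets _ _ hm _ hte

theorem no_strategy (hc : CCC P) (hsat : NoSat K) (hr : AddsReal P) (p : P) :
    p ∈ fnot (ChooseHasStrategy P K) := by
  intro q hq hmem
  refine no_strategyLe hc hsat hr p q hq ?_
  refine mem_fex.2 fun r hr => ?_
  obtain ⟨t, ht, σ, h⟩ := mem_fex.1 hmem r hr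
  exact ⟨t, ht, σ, fun A => chooseWinsLe_of_chooseWins (h A)⟩

end

end Pool.Agent.Y467.CC
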