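import Pool.Agent.W872.CC.Prec
import Pool.Agent.Y467.CC.Comb

/-!
# Forcing notions with the countable chain condition preserve precipitous ideals on `ω₂`,
cardinals, and (if they are small) the continuum hypothesis
-/

namespace Pool.Agent.Y467.CC

open Cardinal Pool.Agent.Helper669.Forcing Pool.Agent.W872.CC

section

variable {P : Type} [Preorder P] {K : Type} {I : Set (Set K)}

/-- the points which `p` does not force out of the set named by `S` -/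
def supp (p : P) (S : K → Set P) : Set K := {a | ∃ q ≤ p, q ∈ meets (S a)}

theorem mem_InGen (hc : CCC P) (hI : IsIdeal I) {S : K → Set P} {p : P} :
    p ∈ InGen I S ↔ supp p S ∈ I := by
  constructor
  · intro h
    obtain ⟨A, hA, hAc, -, hpre⟩ := exists_max hc
      {d : P × {A : Set K // A ∈ I} | d.1 ∈ SubSet S (chk P d.2.1)} p (fun r hr => by
        obtain ⟨q, hq, A, hA⟩ := mem_fex.1 h r hr
        exact ⟨(q, A), hA, hq⟩)
    obtain ⟨d₀, hd₀, -⟩ := hpre p le_rfl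
    have hne : Nonempty A := ⟨⟨d₀, hd₀⟩⟩
    have hcA : Countable A := hAc.to_subtype
    have h1 : (⋃ d : A, d.1.2.1) ∈ I := by
      obtain ⟨f, hf⟩ := exists_surjective_nat A
      have h2 : (⋃ n : ℕ, (f n).1.2.1) ∈ I := hI.iUnion_countable _ fun n => (f n).1.2.2
      refine hI.mono _ h2 _ (Set.iUnion_subset fun d => ?_)
      obtain ⟨n, rfl⟩ := hf d
      exact Set.subset_iUnion (fun n => (f n).1.2.1) n
    refine hI.mono _ h1 _ ?_
    rintro a ⟨q, hq, ha⟩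
    obtain ⟨d, hd, t, ht, htd⟩ := hpre q hq
    have h2 := mem_SubSet.1 (hA hd) a t htd (down_meets _ _ ha _ ht)
    exact Set.mem_iUnion.2 ⟨⟨d, hd⟩, mem_meets_chk.1 h2⟩
  · intro h
    refine mem_fex.2 fun q hq => ⟨q, le_rfl, ⟨_, h⟩, mem_SubSet.2 fun a r hr hS => ?_⟩
    exact mem_meets_chk.2 ⟨r, hr.trans hq, hS⟩

theorem supp_chk {A : Set K} {q : P} : supp q (chk P A) = A := by
  ext a
  constructor
  · rintro ⟨r, -, h⟩
    exact mem_meets_chk.1 h
  · intro h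
    exact ⟨q, le_rfl, mem_meets_chk.2 h⟩

theorem genIsIdeal (hc : CCC P) (hI : IsIdeal I) (p : P) : p ∈ GenIsIdeal P I := by
  refine ⟨fun q _ hq => ?_, fun S T => mem_fimp.2 fun q _ hq => ⟨q, le_rfl, ?_⟩, fun a => ?_,
    fun S => mem_fimp.2 fun q _ hq => ⟨q, le_rfl, ?_⟩⟩
  · have := (mem_InGen hc hI).1 hq
    rw [supp_chk] at this
    exact hI.proper this
  · refine (mem_InGen hc hI).2 ?_
    refine hI.mono _ ((mem_InGen hc hI).1 hq.1) _ ?_
    rintro a ⟨r, hr, ha⟩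
    exact ⟨r, hr, mem_SubSet.1 hq.2 a r hr ha⟩
  · refine (mem_InGen hc hI).2 ?_
    rw [supp_chk]
    exact hI.singleton a
  · refine (mem_InGen hc hI).2 ?_
    have h1 := hI.complete (fun i => supp q (S i)) fun i => (mem_InGen hc hI).1 (hq i)
    refine hI.mono _ h1 _ ?_
    rintro a ⟨r, hr, ha⟩
    obtain ⟨t, ht, s, hs, hts⟩ := ha r le_rfl
    obtain ⟨i, hi⟩ := Set.mem_iUnion.1 hs
    exact Set.mem_iUnion.2 ⟨i, t, ht.trans hr, meets_of_le hi hts⟩

/-- a name for a set whose support is positive is forced to be positive by some condition -/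
theorem exists_pos (hc : CCC P) (hI : IsIdeal I) {S : K → Set P} {p : P} (h : supp p S ∉ I) :
    ∃ q ≤ p, q ∈ fnot (InGen I S) := by
  by_contra hcon
  push Not at hcon
  refine h ((mem_InGen hc hI).1 ((reg_fex _).dense p fun q hq => ?_))
  by_contra h1
  push Not at h1
  exact hcon q hq h1

theorem supp_pos (hc : CCC P) (hI : IsIdeal I) (z : Two P I) : supp z.cond z.set ∉ I :=
  fun h => z.pos z.cond le_rfl ((mem_InGen hc hI).2 h)

/-- below every condition of the iteration, a given function is a function of the ground model -/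
theorem reduce (hc : CCC P) (hI : IsIdeal I) (z : Two P I) (F : FunName P K) :
    ∃ z' ≤ z, ∃ f : K → Ordinal.{0}, ∀ a, ∀ r ≤ z'.cond, r ∈ meets (z'.set a) →
      r ∈ meets (F.1 a (f a)) := by
  classical
  have h1 : ∀ a, ∃ (r : P) (x : Ordinal.{0}), a ∈ supp z.cond z.set →
      r ≤ z.cond ∧ r ∈ meets (z.set a) ∧ r ∈ meets (F.1 a x) := by
    intro a
    by_cases ha : a ∈ supp z.cond z.set
    · obtain ⟨q, hq, hqa⟩ := ha
      obtain ⟨r, hr, x, hx⟩ := IsFun.total (F.2 q) a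
      exact ⟨r, x, fun _ => ⟨hr.trans hq, down_meets _ _ hqa _ hr, hx⟩⟩
    · exact ⟨z.cond, 0, fun h => absurd h ha⟩
  choose r f hrf using h1
  let S : K → Set P := fun a => {q | a ∈ supp z.cond z.set ∧ q = r a}
  have h2 : supp z.cond S ∉ I := by
    intro h
    refine supp_pos hc hI z (hI.mono _ h _ fun a ha => ?_)
    exact ⟨r a, (hrf a ha).1, meets_of_mem ⟨ha, rfl⟩⟩
  obtain ⟨p, hp, hpos⟩ := exists_pos hc hI h2
  have h3 : ∀ a, ∀ q, q ∈ meets (S a) → q ∈ meets (z.set a) ∧ q ∈ meets (F.1 a (f a)) := by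
    intro a q hq
    constructor
    · refine (reg_meets _).dense q fun s hs => ?_
      obtain ⟨t, ht, u, ⟨ha, rfl⟩, htu⟩ := hq s hs
      exact ⟨t, ht, down_meets _ _ (hrf a ha).2.1 _ htu⟩
    · refine (reg_meets _).dense q fun s hs => ?_
      obtain ⟨t, ht, u, ⟨ha, rfl⟩, htu⟩ := hq s hs
      exact ⟨t, ht, down_meets _ _ (hrf a ha).2.2 _ htu⟩
  exact ⟨⟨p, S, hpos⟩, ⟨hp, mem_SubSet.2 fun a q _ hq => (h3 a q hq).1⟩, f,
    fun a q _ hq => (h3 a q hq).2⟩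

theorem genPrecipitous (hc : CCC P) (hI : IsIdeal I) (hp : Precipitous I) :
    GenPrecipitous P I := by
  intro z₀ E
  refine mem_fimp.2 fun x hx hne => ?_
  by_contra hcon
  push Not at hcon
  -- below `x` no element is minimal
  have hmin : ∀ z ≤ x, ∀ F : FunName P K, z ∈ meets (E F) →
      ∃ w ≤ z, ∃ G, w ∈ meets (E G) ∧ w ∈ GenUltLt I G F := by
    intro z hz F hF
    by_contra hc
    push Not at hc
    refine hcon z hz (mem_fex.2 fun w hw => ⟨w, le_rfl, F, down_meets _ _ hF _ hw, fun G => ?_⟩)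
    refine mem_fimp.2 fun u hu hG => ⟨u, le_rfl, fun v hv hlt => ?_⟩
    exact hc v (hv.trans (hu.trans hw)) G (down_meets _ _ hG _ hv) hlt
  -- the set of functions of the ground model
  let B : (K → Ordinal.{0}) → Set (Pos I) := fun f => {Z | ∃ z ≤ x, ∃ F : FunName P K,
    z ∈ meets (E F) ∧ (∀ a ∈ Z.1, a ∈ supp z.cond z.set) ∧
      ∀ a, ∀ r ≤ z.cond, r ∈ meets (z.set a) → r ∈ meets (F.1 a (f a))}
  have hB : ∀ z ≤ x, ∀ F : FunName P K, z ∈ meets (E F) → ∃ z' ≤ z, ∃ f : K → Ordinal.{0},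
      (⟨supp z'.cond z'.set, supp_pos hc hI z'⟩ : Pos I) ∈ B f ∧
        ∀ a, ∀ r ≤ z'.cond, r ∈ meets (z'.set a) → r ∈ meets (F.1 a (f a)) := by
    intro z hz F hF
    obtain ⟨z', hz', f, h⟩ := reduce hc hI z F
    exact ⟨z', hz', f, ⟨z', hz'.trans hz, F, down_meets _ _ hF _ hz', fun a ha => ha, h⟩, h⟩
  obtain ⟨x', hx', F₀, hF₀⟩ := mem_fex.1 hne x le_rfl
  obtain ⟨y', -, f₀, hZ₀, -⟩ := hB x' hx' F₀ hF₀
  obtain ⟨Z₁, hZ₁, h2⟩ := mem_fimp.1 (hp _ B) _ le_rfl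
    (mem_fex_of_mem f₀ (down_meets _) (meets_of_mem hZ₀))
  obtain ⟨Z₂, hZ₂, f, h3, h4⟩ := mem_fex.1 h2 Z₁ le_rfl
  obtain ⟨Z₃, hZ₃, Z', ⟨z, hz, F, hF, hsub, hval⟩, hle⟩ := h3 Z₂ le_rfl
  -- restrict `z` to `Z₃`
  let S : K → Set P := fun a => {q | a ∈ Z₃.1 ∧ q ∈ meets (z.set a)}
  have hS : ∀ a q, q ∈ meets (S a) → a ∈ Z₃.1 ∧ q ∈ meets (z.set a) := by
    intro a q hq
    refine ⟨?_, (reg_meets _).dense q fun s hs => ?_⟩
    · obtain ⟨_, _, u, hu, _⟩ := hq q le_rfl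
      exact hu.1
    · obtain ⟨t, ht, u, hu, htu⟩ := hq s hs
      exact ⟨t, ht, down_meets _ _ hu.2 _ htu⟩
  have hS' : supp z.cond S ∉ I := by
    intro h
    refine Z₃.2 (hI.mono _ h _ fun a ha => ?_)
    obtain ⟨q, hq, hqa⟩ := hsub a (hle ha)
    exact ⟨q, hq, meets_of_mem ⟨ha, hqa⟩⟩
  obtain ⟨q, hq, hpos⟩ := exists_pos hc hI hS'
  have h5 : (⟨q, S, hpos⟩ : Two P I) ≤ z :=
    ⟨hq, mem_SubSet.2 fun a r _ hr => (hS a r hr).2⟩
  obtain ⟨w, hw, G, hG, hlt⟩ := hmin _ (h5.trans hz) F (down_meets _ _ hF _ h5)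
  obtain ⟨v, hv, u, hu, hvu⟩ := hlt w le_rfl
  have hvx : v ≤ x := hv.trans (hw.trans (h5.trans hz))
  obtain ⟨v', hv', g, hB4, hval4⟩ := hB v hvx G (down_meets _ _ hG _ hv)
  have h43 : (⟨supp v'.cond v'.set, supp_pos hc hI v'⟩ : Pos I) ≤ Z₃ := by
    rintro a ⟨r, hr, ha⟩
    exact (hS a r (mem_SubSet.1 (hv'.trans (hv.trans hw)).2 a r hr ha)).1
  obtain ⟨Z₅, hZ₅, h6⟩ := mem_fimp.1 (h4 g) _ (h43.trans hZ₃) (meets_of_mem hB4)
  refine h6 Z₅ le_rfl (meets_of_mem ?_)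
  intro a ha
  obtain ⟨r, hr, hra⟩ := hZ₅ ha
  have h7 : r ∈ meets (G.1 a (g a)) := hval4 a r hr hra
  have h8 : r ∈ meets (u.set a) := mem_SubSet.1 (hv'.trans hvu).2 a r hr hra
  have h9 : r ∈ meets (F.1 a (f a)) := by
    have h10 := hv'.trans (hv.trans (hw.trans h5))
    exact hval a r (hr.trans h10.1) (mem_SubSet.1 h10.2 a r hr hra)
  obtain ⟨s, hs, h11⟩ := mem_fimp.1 (hu a) r (hr.trans (hv'.trans hvu).1) h8
  obtain ⟨t, _, h12⟩ := mem_fimp.1 (h11 (g a) (f a)) s le_rfl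
    ⟨down_meets _ _ h7 _ hs, down_meets _ _ h9 _ hs⟩
  exact h12

/-! ### Cardinals and the continuum hypothesis -/

theorem cardinalsPreserved (hc : CCC P) (p : P) : p ∈ CardinalsPreserved.{0, 0} P := by
  classical
  intro μ ν hμν hν q hq hmem
  obtain ⟨r, hr, R, hfun, honto⟩ := mem_fex.1 hmem q le_rfl
  -- the possible values at a point
  have h0 : ∀ x : μ.out, ∃ C : Set ν.out, C.Countable ∧ ∀ s ≤ r, ∀ y, s ∈ meets (R x y) → y ∈ C := by
    intro x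
    obtain ⟨A, hA, hAc, -, hpre⟩ := exists_max hc {d : P × ν.out | d.1 ∈ meets (R x d.2)} r
      (fun s hs => by
        obtain ⟨t, ht, y, hy⟩ := IsFun.total (down_IsFun _ _ hfun _ hs) x
        exact ⟨(t, y), hy, ht⟩)
    refine ⟨Prod.snd '' A, hAc.image _, fun s hs y hy => ?_⟩
    obtain ⟨d, hd, t, ht, htd⟩ := hpre s hs
    have h1 : y = d.2 := IsFun.unique (down_IsFun _ _ hfun _ (ht.trans hs))
      (down_meets _ _ hy _ ht) (down_meets _ _ (hA hd) _ htd)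
    exact ⟨d, hd, h1.symm⟩
  choose C hC hmemC using h0
  have h1 : (⋃ x, C x) = Set.univ := by
    rw [Set.eq_univ_iff_forall]
    intro y
    obtain ⟨s, hs, x, hx⟩ := mem_fex.1 (honto y) r le_rfl
    exact Set.mem_iUnion.2 ⟨x, hmemC x s hs y hx⟩
  have h2 : ν ≤ μ * ℵ₀ := by
    have h3 : #(⋃ x, C x) ≤ #μ.out * ⨆ x, #(C x) := mk_iUnion_le _
    rw [h1, mk_univ, mk_out, mk_out] at h3
    refine h3.trans (mul_le_mul_right ?_ _)
    exact ciSup_le' fun x => (hC x).le_aleph0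
  exact absurd h2 (not_le_of_gt (mul_lt_of_lt hν.le hμν hν))

/-- the name given by countably many pairs for each `n` -/
def ename (e : ℕ → ℕ → P × ℕ) : ℕ → ℕ → Set P := fun n a => {q | ∃ k, e n k = (q, a)}

theorem exists_ename (hc : CCC P) {x : ℕ → ℕ → Set P} {p : P} (hx : p ∈ IsFun x) :
    ∃ e : ℕ → ℕ → P × ℕ, p ∈ IsFun (ename e) ∧ p ∈ SameReal x (ename e) := by
  have h0 : ∀ n, ∃ e : ℕ → P × ℕ, (∀ k, (e k).1 ∈ meets (x n (e k).2)) ∧
      ∀ r ≤ p, ∃ k, ∃ t, t ≤ r ∧ t ≤ (e k).1 := by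
    intro n
    obtain ⟨A, hA, hAc, -, hpre⟩ := exists_max hc {d : P × ℕ | d.1 ∈ meets (x n d.2)} p
      (fun s hs => by
        obtain ⟨t, ht, y, hy⟩ := IsFun.total (down_IsFun _ _ hx _ hs) n
        exact ⟨(t, y), hy, ht⟩)
    have hne : A.Nonempty := by
      obtain ⟨d, hd, -⟩ := hpre p le_rfl
      exact ⟨d, hd⟩
    obtain ⟨e, he⟩ := hAc.exists_eq_range hne
    refine ⟨e, fun k => hA (he ▸ Set.mem_range_self k), fun r hr => ?_⟩
    obtain ⟨d, hd, t, ht, htd⟩ := hpre r hr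
    rw [he] at hd
    obtain ⟨k, rfl⟩ := hd
    exact ⟨k, t, ht, htd⟩
  choose e he hpre using h0
  have h1 : ∀ n a, ∀ q ≤ p, q ∈ meets (ename e n a) ↔ q ∈ meets (x n a) := by
    intro n a q hq
    constructor
    · intro h
      refine (reg_meets _).dense q fun s hs => ?_
      obtain ⟨t, ht, u, ⟨k, hk⟩, htu⟩ := h s hs
      have h2 := he n k
      rw [hk] at h2
      exact ⟨t, ht, down_meets _ _ h2 _ htu⟩
    · intro h
      intro s hs
      obtain ⟨k, t, ht, hte⟩ := hpre n s (hs.trans hq)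
      refine ⟨t, ht, (e n k).1, ⟨k, ?_⟩, hte⟩
      have h2 : a = (e n k).2 := IsFun.unique (down_IsFun _ _ hx _ (ht.trans (hs.trans hq)))
        (down_meets _ _ h _ (ht.trans hs)) (down_meets _ _ (he n k) _ hte)
      rw [h2]
  refine ⟨e, ⟨fun n => mem_fex.2 fun q hq => ?_, fun n a b => mem_fimp.2 fun q hq h => ?_⟩,
    fun n a b => mem_fimp.2 fun q hq h => ?_⟩
  · obtain ⟨r, hr, a, ha⟩ := IsFun.total (down_IsFun _ _ hx _ hq) n
    exact ⟨r, hr, a, (h1 n a r (hr.trans hq)).2 ha⟩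
  · exact ⟨q, le_rfl, IsFun.unique (down_IsFun _ _ hx _ hq) ((h1 n a q hq).1 h.1)
      ((h1 n b q hq).1 h.2)⟩
  · exact ⟨q, le_rfl, IsFun.unique (down_IsFun _ _ hx _ hq) h.1 ((h1 n b q hq).1 h.2)⟩

theorem mk_enames (hP : #P ≤ ℵ_ 1) (hCH : (𝔠 : Cardinal.{0}) = ℵ_ 1) :
    #(ℕ → ℕ → P × ℕ) ≤ 𝔠 := by
  have h1 : #(P × ℕ) ≤ 𝔠 := by
    rw [mk_prod, lift_id, lift_id, mk_nat, hCH]
    exact mul_le_of_le (aleph0_le_aleph 1) hP (aleph0_le_aleph 1)
  rw [← power_def, ← power_def, mk_nat]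
  have h2 : #(P × ℕ) ^ ℵ₀ ≤ 𝔠 := by
    refine (power_le_power_right h1).trans ?_
    rw [continuum_power_aleph0]
  refine (power_le_power_right h2).trans ?_
  rw [continuum_power_aleph0]

theorem continuumLe (hc : CCC P) (hP : #P ≤ ℵ_ 1) (hCH : (𝔠 : Cardinal.{0}) = ℵ_ 1) (p : P) :
    p ∈ ContinuumLe P W1 := by
  have h1 : #(ℕ → ℕ → P × ℕ) ≤ #W1 := by
    rw [mk_W1, ← hCH]
    exact mk_enames hP hCH
  obtain ⟨g⟩ := h1
  have hne : Nonempty (ℕ → ℕ → P × ℕ) := ⟨fun _ _ => (p, 0)⟩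
  refine mem_fex_of_mem
    (fun y => fix (ename (Function.invFun (g : (ℕ → ℕ → P × ℕ) → W1) y))) ?_
    ⟨fun y => isFun_fix _ p, fun x => ?_⟩
  · exact down_fand (down_fall fun _ => down_IsFun _) (down_fall fun _ => down_fimp _ _)
  · refine mem_fimp.2 fun q hq hx => ?_
    obtain ⟨e, h2, h3⟩ := exists_ename hc hx
    refine ⟨q, le_rfl, mem_fex_of_mem (g e) (down_SameReal _ _) ?_⟩
    change q ∈ SameReal x (fix (ename (Function.invFun g (g e))))
    rw [Function.leftInverse_invFun g.injective e]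
    intro n a b
    refine mem_fimp.2 fun r hr h => ⟨r, le_rfl, ?_⟩
    obtain ⟨s, hs, m, hm⟩ := IsFun.total (down_IsFun _ _ h2 _ hr) n
    have h4 : a = m := SameReal.eq (down_SameReal _ _ _ h3 _ (hs.trans hr))
      (down_meets _ _ h.1 _ hs) hm
    have h5 : m = b := SameReal.eq (down_SameReal _ _ _ (same_fix h2) _ (hs.trans hr)) hm
      (down_meets _ _ h.2 _ hs)
    exact h4.trans h5

end

end Pool.Agent.Y467.CC
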